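import Pool.Agent.H74.G.R_seed8.W564.SC.Defs

open scoped Manifold ContDiff Topology
open Filter Set Metric

universe u

namespace Pool.Agent.W597.SC

open Pool.Agent.H718R2.G Pool.Agent.W564.SC

section
variable {n : ℕ} {N : Type*} [TopologicalSpace N] [ChartedSpace (V n) N] {r : ℕ∞}
  {P : Type*}

/-- the conjugated family -/
noncomputable def conjF (H : P → DiffM n N r) (Ψ : V n → DiffM n N r) (q : P × V n) : DiffM n N r :=
  (Ψ q.2).trans ((H q.1).trans (Ψ q.2).symm)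

theorem conjF_apply (H : P → DiffM n N r) (Ψ : V n → DiffM n N r) (q : P × V n) (y : N) :
    conjF H Ψ q y = (Ψ q.2).symm (H q.1 (Ψ q.2 y)) := rfl

theorem conjF_iter (H : P → DiffM n N r) (Ψ : V n → DiffM n N r) (q : P × V n) (i : ℕ) (y : N) :
    (conjF H Ψ q)^[i] y = (Ψ q.2).symm ((H q.1)^[i] (Ψ q.2 y)) := by
  induction i with
  | zero => simp
  | succ i ih =>
    rw [Function.iterate_succ_apply', ih, conjF_apply, Function.iterate_succ_apply']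
    congr 2
    exact (Ψ q.2).apply_symm_apply _

theorem isFam_conjF [NormedAddCommGroup P] [NormedSpace ℝ P] (H : P → DiffM n N r)
    (Ψ : V n → DiffM n N r) (hH : IsFam n N r H) (h0 : ∀ y, Ψ 0 y = y)
    (h1 : ContMDiff ((𝓡 n).prod (𝓡 n)) (𝓡 n) r (fun q : V n × N => Ψ q.1 q.2))
    (h2 : ContMDiff ((𝓡 n).prod (𝓡 n)) (𝓡 n) r (fun q : V n × N => (Ψ q.1).symm q.2)) :
    IsFam n N r (conjF H Ψ) := by
  intro y
  have a1 : ContMDiff (𝓘(ℝ, P × V n).prod (𝓡 n)) 𝓘(ℝ, P) r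
      (fun q : (P × V n) × N => q.1.1) := by
    have e1 : ContMDiff 𝓘(ℝ, P × V n) 𝓘(ℝ, P) r (fun q : P × V n => q.1) :=
      contDiff_fst.contMDiff
    exact e1.comp contMDiff_fst
  have a2 : ContMDiff (𝓘(ℝ, P × V n).prod (𝓡 n)) (𝓡 n) r
      (fun q : (P × V n) × N => q.1.2) := by
    have e1 : ContMDiff 𝓘(ℝ, P × V n) 𝓘(ℝ, V n) r (fun q : P × V n => q.2) :=
      contDiff_snd.contMDiff
    exact e1.comp contMDiff_fst
  have a3 : ContMDiff (𝓘(ℝ, P × V n).prod (𝓡 n)) (𝓡 n) r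
      (fun q : (P × V n) × N => q.2) := contMDiff_snd
  have a4 : ContMDiff (𝓘(ℝ, P × V n).prod (𝓡 n)) (𝓡 n) r
      (fun q : (P × V n) × N => Ψ q.1.2 q.2) := h1.comp (a2.prodMk a3)
  have a5 : ContMDiff (𝓘(ℝ, P × V n).prod (𝓡 n)) (𝓘(ℝ, P).prod (𝓡 n)) r
      (fun q : (P × V n) × N => (q.1.1, Ψ q.1.2 q.2)) := a1.prodMk a4
  have hH' : ContMDiffAt (𝓘(ℝ, P).prod (𝓡 n)) (𝓡 n) r (fun q : P × N => H q.1 q.2)
      ((fun q : (P × V n) × N => (q.1.1, Ψ q.1.2 q.2)) ((0 : P × V n), y)) := by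
    have := hH y
    simpa [h0] using this
  have a6 : ContMDiffAt (𝓘(ℝ, P × V n).prod (𝓡 n)) (𝓡 n) r
      (fun q : (P × V n) × N => H q.1.1 (Ψ q.1.2 q.2)) ((0 : P × V n), y) :=
    ContMDiffAt.comp ((0 : P × V n), y) hH' a5.contMDiffAt
  have a7 : ContMDiffAt (𝓘(ℝ, P × V n).prod (𝓡 n)) ((𝓡 n).prod (𝓡 n)) r
      (fun q : (P × V n) × N => (q.1.2, H q.1.1 (Ψ q.1.2 q.2))) ((0 : P × V n), y) :=
    a2.contMDiffAt.prodMk a6
  exact ContMDiffAt.comp ((0 : P × V n), y) h2.contMDiffAt a7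

end

theorem cl (h : S_CL0.{u}) (h2 : S_PSI.{u}) : S_CL.{u} := by
  intro n N _ _ _ _ _ r hr P _ _ H hH χ z hχ U hU hHU
  obtain ⟨Ψ, κ₂, hκ₂, hΨ0, hΨs, hΨi, hΨ⟩ := h2 n N r χ z hχ
  have h0 : conjF H Ψ (0 : P × V n) = H 0 := by
    apply Diffeomorph.ext
    intro y
    rw [conjF_apply]
    show (Ψ 0).symm (H 0 (Ψ 0 y)) = H 0 y
    rw [hΨ0]
    apply (Ψ 0).injective
    show Ψ 0 ((Ψ 0).symm (H 0 y)) = Ψ 0 (H 0 y)
    rw [(Ψ 0).apply_symm_apply, hΨ0]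
  obtain ⟨k, hk, κ₁, hκ₁, hc⟩ := h n N r hr (P × V n) (conjF H Ψ)
    (isFam_conjF H Ψ hH hΨ0 hΨs hΨi) χ z hχ U hU (by rw [h0]; exact hHU)
  refine ⟨k, hk, min (min κ₁ κ₂) (1 / 8), by positivity, ?_⟩
  intro s z' ρ m hs hz' hz'κ hρ hρκ hm hret hclose havoid
  set κ : ℝ := min (min κ₁ κ₂) (1 / 8) with hκdef
  have hκ0 : 0 < κ := by rw [hκdef]; positivity
  have hκ1 : κ ≤ κ₁ := (min_le_left _ _).trans (min_le_left _ _)
  have hκ2 : κ ≤ κ₂ := (min_le_left _ _).trans (min_le_right _ _)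
  have hκ8 : κ ≤ 1 / 8 := min_le_right _ _
  set v : V n := χ z' with hv
  have hvκ2 : ‖v‖ < κ₂ := hz'κ.trans_le hκ2
  -- the translation takes `z` to `z'`
  have hzz' : Ψ v z = z' := by
    have hz4 : ‖χ z‖ < 1 / 4 := by rw [hχ.zero, norm_zero]; norm_num
    obtain ⟨m1, m2⟩ := hΨ v hvκ2 z hχ.src hz4
    apply χ.injOn m1 hz'
    rw [m2, hχ.zero, zero_add]
  -- inverse images
  have hinv : ∀ w ∈ χ.source, ‖χ w - v‖ < 1 / 4 →
      (Ψ v).symm w ∈ χ.source ∧ χ ((Ψ v).symm w) = χ w - v := by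
    intro w hw hw4
    have ht : χ w - v ∈ χ.target := by
      apply hχ.ball
      rw [mem_closedBall, dist_zero_right]
      linarith
    have hys : χ.symm (χ w - v) ∈ χ.source := χ.map_target ht
    have hχy : χ (χ.symm (χ w - v)) = χ w - v := χ.right_inv ht
    obtain ⟨m1, m2⟩ := hΨ v hvκ2 (χ.symm (χ w - v)) hys (by rw [hχy]; exact hw4)
    have e1 : Ψ v (χ.symm (χ w - v)) = w := by
      apply χ.injOn m1 hw
      rw [m2, hχy, sub_add_cancel]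
    have e2 : (Ψ v).symm w = χ.symm (χ w - v) := by
      apply (Ψ v).injective
      show Ψ v ((Ψ v).symm w) = Ψ v (χ.symm (χ w - v))
      rw [(Ψ v).apply_symm_apply, e1]
    rw [e2]
    exact ⟨hys, hχy⟩
  have hit : ∀ i, (conjF H Ψ (s, v))^[i] z = (Ψ v).symm ((H s)^[i] z') := by
    intro i
    rw [conjF_iter]
    show (Ψ v).symm ((H s)^[i] (Ψ v z)) = _
    rw [hzz']
  have hρ8 : ρ < 1 / 8 := hρκ.trans_le hκ8
  have hρk0 : 0 < ρ ^ k := pow_pos hρ k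
  have hρk : ρ ^ k ≤ 1 := pow_le_one₀ hρ.le (by linarith)
  have hsmall : ‖χ ((H s)^[m] z') - v‖ < 1 / 4 := by
    have : κ * ρ ^ k ≤ 1 / 8 * 1 := mul_le_mul hκ8 hρk hρk0.le (by norm_num)
    linarith
  obtain ⟨b1, b2⟩ := hinv _ hret hsmall
  refine hc (s, v) ρ m ?_ hρ (hρκ.trans_le hκ1) hm ?_ ?_ ?_
  · rw [Prod.norm_def]
    exact max_lt (hs.trans_le hκ1) (hz'κ.trans_le hκ1)
  · rw [hit]; exact b1
  · rw [hit, b2]
    exact hclose.trans_le (mul_le_mul_of_nonneg_right hκ1 hρk0.le)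
  · intro i hi him hsrc
    rw [hit] at hsrc ⊢
    by_cases h4 : ‖χ ((Ψ v).symm ((H s)^[i] z'))‖ < 1 / 4
    · obtain ⟨m1, m2⟩ := hΨ v hvκ2 _ hsrc h4
      rw [(Ψ v).apply_symm_apply] at m1 m2
      have := havoid i hi him m1
      rw [m2, add_sub_cancel_right] at this
      exact this
    · push Not at h4
      linarith

end Pool.Agent.W597.SC
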